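import Pool.Agent.Y957.MC.Spec3

/-!
# Discrete and continuous averages of Lipschitz functions (helper941)
-/

set_option autoImplicit false

namespace Pool.Agent.Y941.MC

open MeasureTheory Filter Finset Pool.Agent.Y957.MC

theorem lip_nonneg {F : ℝ → ℂ} {L : ℝ} (h : ∀ v w, ‖F v - F w‖ ≤ L * |v - w|) : 0 ≤ L := by
  have := (norm_nonneg _).trans (h 1 0)
  simpa using this

theorem lip_cont {F : ℝ → ℂ} {L : ℝ} (h : ∀ v w, ‖F v - F w‖ ≤ L * |v - w|) :
    Continuous F := by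
  have hL := lip_nonneg h
  refine LipschitzWith.continuous (K := ⟨L, hL⟩) (LipschitzWith.of_dist_le_mul fun v w => ?_)
  rw [dist_eq_norm, Real.dist_eq]
  exact h v w

theorem lip_mod {F : ℝ → ℂ} {L : ℝ} (h : ∀ v w, ‖F v - F w‖ ≤ L * |v - w|) (Λ : ℝ)
    (hΛ : 1 ≤ Λ) : ∃ C : ℝ, ∀ M : ℝ, 1 ≤ M → Mod Λ F C M := by
  have hL := lip_nonneg h
  refine ⟨2 * L * Real.exp Λ * Λ, fun M hM t ht ht1 => ?_⟩
  have h1 : ∀ s ∈ Set.uIoc (0 : ℝ) Λ, ‖‖F (M * Real.exp (s + t)) - F (M * Real.exp s)‖‖ ≤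
      2 * L * Real.exp Λ * M * t := by
    intro s hs
    rw [Set.uIoc_of_le (by linarith)] at hs
    rw [norm_norm]
    refine (h _ _).trans ?_
    rw [Real.exp_add, show M * (Real.exp s * Real.exp t) - M * Real.exp s =
      M * Real.exp s * (Real.exp t - 1) by ring, abs_mul, abs_of_nonneg (by positivity)]
    have h2 : |Real.exp t - 1| ≤ 2 * t := by
      have := Real.abs_exp_sub_one_le (x := t) (by rw [abs_of_pos ht]; exact ht1)
      rwa [abs_of_pos ht] at this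
    have h3 : Real.exp s ≤ Real.exp Λ := Real.exp_le_exp.2 hs.2
    calc L * (M * Real.exp s * |Real.exp t - 1|) ≤ L * (M * Real.exp Λ * (2 * t)) := by gcongr
      _ = _ := by ring
  have h4 := intervalIntegral.norm_integral_le_of_norm_le_const h1
  rw [sub_zero, abs_of_pos (by linarith : (0 : ℝ) < Λ)] at h4
  refine (Real.le_norm_self _).trans (h4.trans (le_of_eq ?_))
  ring

theorem riemann {F : ℝ → ℂ} {L : ℝ} (h : ∀ v w, ‖F v - F w‖ ≤ L * |v - w|) (t : ℝ)
    (ht : 0 < t) (M : ℕ) :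
    ‖(∑ n ∈ Icc 1 M, F (t * n)) * t - ∫ v in (0 : ℝ)..(t * M), F v‖ ≤ M * (L * t * t) := by
  have hL := lip_nonneg h
  have hF := lip_cont h
  have hint : ∀ a b : ℝ, IntervalIntegrable F volume a b := fun a b =>
    hF.intervalIntegrable a b
  induction M with
  | zero => simp
  | succ M ih =>
    rw [Finset.sum_Icc_succ_top (by omega),
      ← intervalIntegral.integral_add_adjacent_intervals (hint 0 (t * M))
        (hint (t * M) (t * (M + 1 : ℕ)))]
    have h1 : ‖F (t * (M + 1 : ℕ)) * t - ∫ v in (t * M)..(t * (M + 1 : ℕ)), F v‖ ≤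
        L * t * t := by
      have h2 : F (t * (M + 1 : ℕ)) * t - ∫ v in (t * M)..(t * (M + 1 : ℕ)), F v =
          ∫ v in (t * M)..(t * (M + 1 : ℕ)), (F (t * (M + 1 : ℕ)) - F v) := by
        rw [intervalIntegral.integral_sub (by simp) (hint _ _),
          intervalIntegral.integral_const]
        congr 1
        rw [show t * ((M + 1 : ℕ) : ℝ) - t * M = t by push_cast; ring]
        rw [Complex.real_smul, mul_comm]
      rw [h2]
      have h3 : ∀ v ∈ Set.uIoc (t * M) (t * (M + 1 : ℕ)),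
          ‖F (t * (M + 1 : ℕ)) - F v‖ ≤ L * t := by
        intro v hv
        rw [Set.uIoc_of_le (by push_cast; nlinarith)] at hv
        refine (h _ _).trans ?_
        apply mul_le_mul_of_nonneg_left _ hL
        rw [abs_of_nonneg (by linarith [hv.2])]
        have := hv.1
        push_cast
        linarith
      have h4 := intervalIntegral.norm_integral_le_of_norm_le_const h3
      refine h4.trans (le_of_eq ?_)
      rw [show t * ((M + 1 : ℕ) : ℝ) - t * M = t by push_cast; ring, abs_of_pos ht]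
    have e : (∑ n ∈ Icc 1 M, F (t * n) + F (t * (M + 1 : ℕ))) * t -
        ((∫ v in (0 : ℝ)..(t * M), F v) + ∫ v in (t * M)..(t * (M + 1 : ℕ)), F v) =
        ((∑ n ∈ Icc 1 M, F (t * n)) * t - ∫ v in (0 : ℝ)..(t * M), F v) +
        (F (t * (M + 1 : ℕ)) * t - ∫ v in (t * M)..(t * (M + 1 : ℕ)), F v) := by ring
    rw [e]
    refine (norm_add_le _ _).trans ?_
    push_cast at *
    linarith

/-- the averages with step `t` -/
theorem riemann' {F : ℝ → ℂ} {L : ℝ} (h : ∀ v w, ‖F v - F w‖ ≤ L * |v - w|) (t : ℝ)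
    (ht : 0 < t) (M : ℕ) (hM : 1 ≤ M) :
    ‖(1 / (M : ℂ)) * ∑ n ∈ Icc 1 M, F (t * n) -
      (1 / ((t * M : ℝ) : ℂ)) * ∫ v in (0 : ℝ)..(t * M), F v‖ ≤ L * t := by
  have hM0 : (0 : ℝ) < M := by exact_mod_cast hM
  have hMc : (M : ℂ) ≠ 0 := by exact_mod_cast hM0.ne'
  have htc : (t : ℂ) ≠ 0 := by exact_mod_cast ht.ne'
  have h1 := riemann h t ht M
  have e : (1 / (M : ℂ)) * ∑ n ∈ Icc 1 M, F (t * n) -
      (1 / ((t * M : ℝ) : ℂ)) * ∫ v in (0 : ℝ)..(t * M), F v =
      (1 / ((t * M : ℝ) : ℂ)) *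
        ((∑ n ∈ Icc 1 M, F (t * n)) * t - ∫ v in (0 : ℝ)..(t * M), F v) := by
    push_cast
    field_simp
  rw [e, norm_mul]
  have h2 : ‖(1 / ((t * M : ℝ) : ℂ))‖ = 1 / (t * M) := by
    rw [norm_div, norm_one, Complex.norm_real, Real.norm_of_nonneg (by positivity)]
  rw [h2]
  calc 1 / (t * M) * ‖(∑ n ∈ Icc 1 M, F (t * n)) * t - ∫ v in (0 : ℝ)..(t * M), F v‖
      ≤ 1 / (t * M) * (M * (L * t * t)) := by
        apply mul_le_mul_of_nonneg_left h1 (by positivity)
    _ = L * t := by field_simp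

/-- the sum over the multiples of `q` -/
theorem sum_mult (G : ℕ → ℂ) (q N : ℕ) (hq : 1 ≤ q) :
    ∑ n ∈ Icc 1 (q * N), (if q ∣ n then (q : ℂ) else 0) * G n =
      q * ∑ m ∈ Icc 1 N, G (q * m) := by
  have h1 : ∑ n ∈ Icc 1 (q * N), (if q ∣ n then (q : ℂ) else 0) * G n =
      ∑ n ∈ (Icc 1 (q * N)).filter (fun n => q ∣ n), (q : ℂ) * G n := by
    rw [Finset.sum_filter]
    refine Finset.sum_congr rfl fun n _ => ?_
    split_ifs <;> simp
  have h2 : (Icc 1 (q * N)).filter (fun n => q ∣ n) = (Icc 1 N).image (fun m => q * m) := by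
    ext n
    simp only [Finset.mem_filter, Finset.mem_Icc, Finset.mem_image]
    constructor
    · rintro ⟨⟨h3, h4⟩, m, rfl⟩
      refine ⟨m, ⟨?_, Nat.le_of_mul_le_mul_left h4 (by omega)⟩, rfl⟩
      rcases Nat.eq_zero_or_pos m with h5 | h5
      · rw [h5] at h3; simp at h3
      · exact h5
    · rintro ⟨m, ⟨h3, h4⟩, rfl⟩
      exact ⟨⟨Nat.mul_pos hq h3, Nat.mul_le_mul_left _ h4⟩, m, rfl⟩
  rw [h1, h2, Finset.sum_image (fun x _ y _ hxy => Nat.eq_of_mul_eq_mul_left (by omega) hxy),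
    Finset.mul_sum]

theorem ae_scale {P : ℝ → Prop} (h : ∀ᵐ a : ℝ ∂(volume.restrict (Set.Ioi (0 : ℝ))), P a)
    (c : ℝ) (hc : 0 < c) : ∀ᵐ a : ℝ ∂(volume.restrict (Set.Ioi (0 : ℝ))), P (c * a) := by
  rw [ae_restrict_iff' measurableSet_Ioi] at h ⊢
  have hq : Measure.QuasiMeasurePreserving (fun x : ℝ => c * x) volume volume :=
    ⟨measurable_const_mul c, by
      rw [Real.map_volume_mul_left hc.ne']
      exact Measure.smul_absolutelyContinuous⟩
  have h1 := hq.ae h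
  filter_upwards [h1] with a ha ha0
  exact ha (by
    rw [Set.mem_Ioi] at ha0 ⊢
    positivity)

theorem rie (h1 : S_DET) (h2 : S_PSQ) : S_RIE := by
  intro F L hF hL
  have hL0 := lip_nonneg hL
  have key : ∀ q : ℕ, 1 ≤ q → ∀ᵐ a : ℝ ∂(volume.restrict (Set.Ioi (0 : ℝ))),
      Tendsto (fun N : ℕ => (1 / (N : ℂ)) * ∑ n ∈ Icc 1 N, F (a * n) -
        (1 / ((q * N : ℕ) : ℂ)) * ∑ n ∈ Icc 1 (q * N), F (a / q * n)) atTop (nhds 0) := by
    intro q hq
    have hq0 : (0 : ℝ) < q := by exact_mod_cast hq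
    have hqc : (q : ℂ) ≠ 0 := by exact_mod_cast hq0.ne'
    have h3 := h1 (fun n => if q ∣ n then (q : ℂ) else 0) 1 (h2 q hq) ⟨q, fun n => by
      split_ifs
      · simp
      · simp⟩ F (lip_cont hL).measurable hF (lip_mod hL)
    have h4 := ae_scale h3 (1 / q) (by positivity)
    filter_upwards [h4] with a ha
    have h5 : Tendsto (fun N : ℕ => q * N) atTop atTop :=
      tendsto_id.const_mul_atTop' (by omega)
    have h6 := ha.comp h5
    refine h6.congr' ?_
    filter_upwards [eventually_ge_atTop 1] with N hN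
    have hNc : (N : ℂ) ≠ 0 := by exact_mod_cast (show N ≠ 0 by omega)
    simp only [Function.comp_apply]
    have e1 : ∑ n ∈ Icc 1 (q * N), ((if q ∣ n then (q : ℂ) else 0) - 1) * F (1 / q * a * n) =
        q * ∑ m ∈ Icc 1 N, F (a * m) - ∑ n ∈ Icc 1 (q * N), F (a / q * n) := by
      have e2 := sum_mult (fun n => F (1 / q * a * n)) q N hq
      have e3 : ∀ m : ℕ, F (1 / q * a * ((q * m : ℕ) : ℝ)) = F (a * m) := by
        intro m
        congr 1
        push_cast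
        field_simp
      simp only [e3] at e2
      rw [← e2, ← Finset.sum_sub_distrib]
      refine Finset.sum_congr rfl fun n _ => ?_
      rw [show (1 : ℝ) / q * a = a / q by ring]
      ring
    rw [e1]
    push_cast
    field_simp
  have hall : ∀ᵐ a : ℝ ∂(volume.restrict (Set.Ioi (0 : ℝ))), ∀ q : ℕ, 1 ≤ q →
      Tendsto (fun N : ℕ => (1 / (N : ℂ)) * ∑ n ∈ Icc 1 N, F (a * n) -
        (1 / ((q * N : ℕ) : ℂ)) * ∑ n ∈ Icc 1 (q * N), F (a / q * n)) atTop (nhds 0) := by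
    rw [ae_all_iff]
    intro q
    by_cases hq : 1 ≤ q
    · filter_upwards [key q hq] with a ha _
      exact ha
    · filter_upwards with a h
      exact absurd h hq
  have hpos : ∀ᵐ a : ℝ ∂(volume.restrict (Set.Ioi (0 : ℝ))), 0 < a :=
    (ae_restrict_iff' measurableSet_Ioi).2 (Eventually.of_forall fun a ha => ha)
  filter_upwards [hall, hpos] with a ha ha0
  rw [Metric.tendsto_atTop]
  intro ε hε
  obtain ⟨q, hq⟩ := exists_nat_gt (2 * (L * a) / ε)
  have hq1 : 1 ≤ q := by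
    have : (0 : ℝ) < q := lt_of_le_of_lt (by positivity) hq
    exact_mod_cast this
  have hq0 : (0 : ℝ) < q := by exact_mod_cast hq1
  have hqL : L * (a / q) < ε / 2 := by
    rw [div_lt_iff₀ hε] at hq
    rw [← mul_div_assoc, div_lt_iff₀ hq0]
    linarith
  obtain ⟨N0, hN0⟩ := Metric.tendsto_atTop.1 (ha q hq1) (ε / 2) (by positivity)
  refine ⟨max N0 1, fun N hN => ?_⟩
  have hN1 : 1 ≤ N := (le_max_right _ _).trans hN
  have h3 := hN0 N ((le_max_left _ _).trans hN)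
  rw [dist_zero_right] at h3 ⊢
  have h4 := riemann' hL (a / q) (by positivity) (q * N) (Nat.mul_pos hq1 hN1)
  have e : (a / q) * ((q * N : ℕ) : ℝ) = a * N := by
    push_cast
    field_simp
  rw [e] at h4
  have e2 : (1 / (N : ℂ)) * ∑ n ∈ Icc 1 N, F (a * n) -
      (1 / ((a * N : ℝ) : ℂ)) * ∫ v in (0 : ℝ)..(a * N), F v =
      ((1 / (N : ℂ)) * ∑ n ∈ Icc 1 N, F (a * n) -
        (1 / ((q * N : ℕ) : ℂ)) * ∑ n ∈ Icc 1 (q * N), F (a / q * n)) +
      ((1 / ((q * N : ℕ) : ℂ)) * ∑ n ∈ Icc 1 (q * N), F (a / q * n) -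
      (1 / ((a * N : ℝ) : ℂ)) * ∫ v in (0 : ℝ)..(a * N), F v) := by ring
  rw [e2]
  refine (norm_add_le _ _).trans_lt ?_
  linarith

end Pool.Agent.Y941.MC
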